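import Pool.Agent.H18.KC.Stmts

/-!
# Board kc, module DBL: doubling for vectors which are only nearly symmetric
-/

set_option autoImplicit false

open Finset

namespace Pool.Agent.H62.KC.DBL

open Pool.Agent.H18.KC

theorem num1 (m : ℕ) (hm : 1 ≤ m) : 2 * (1 + 4 ^ m : ℝ) ^ 2 * (81 ^ m * (2 * m)) ≤
    (10 ^ 5) ^ m := by
  have h4 : (1 : ℝ) ≤ 4 ^ m := one_le_pow₀ (by norm_num)
  have h1 : (1 + 4 ^ m : ℝ) ^ 2 ≤ 4 * 16 ^ m := by
    have h2 : (16 : ℝ) ^ m = (4 ^ m) ^ 2 := by rw [← pow_mul, mul_comm, pow_mul]; norm_num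
    rw [h2]
    nlinarith
  have hm4 : (m : ℝ) ≤ 4 ^ m := by
    have : m < 4 ^ m := Nat.lt_pow_self (by norm_num)
    exact_mod_cast this.le
  have h16 : (16 : ℝ) ≤ 16 ^ m := by
    calc (16 : ℝ) = 16 ^ 1 := (pow_one _).symm
      _ ≤ 16 ^ m := pow_le_pow_right₀ (by norm_num) hm
  have hm0 : (0 : ℝ) ≤ m := Nat.cast_nonneg m
  calc 2 * (1 + 4 ^ m : ℝ) ^ 2 * (81 ^ m * (2 * m)) ≤
      2 * (4 * 16 ^ m) * (81 ^ m * (2 * m)) := by gcongr
    _ = 16 * m * (16 ^ m * 81 ^ m) := by ring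
    _ ≤ 16 ^ m * 4 ^ m * (16 ^ m * 81 ^ m) := by gcongr
    _ = 82944 ^ m := by rw [← mul_pow, ← mul_pow, ← mul_pow]; norm_num
    _ ≤ (10 ^ 5) ^ m := pow_le_pow_left₀ (by norm_num) (by norm_num) m

theorem num2 (m : ℕ) : ((m + m).factorial : ℝ) / (m.factorial : ℝ) ^ 2 ≤ 4 ^ m := by
  have h1 : (Nat.choose (2 * m) m) * (m.factorial * m.factorial) = (2 * m).factorial := by
    have := Nat.choose_mul_factorial_mul_factorial (n := 2 * m) (k := m) (by omega)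
    rw [show 2 * m - m = m by omega] at this
    rw [← this]
    ring
  have h2 : Nat.choose (2 * m) m ≤ 4 ^ m := by
    have h3 := Nat.choose_le_two_pow (2 * m) m
    rwa [pow_mul, show 2 ^ 2 = 4 by norm_num] at h3
  have h3 : (0 : ℝ) < (m.factorial : ℝ) := by exact_mod_cast m.factorial_pos
  rw [div_le_iff₀ (by positivity), ← two_mul]
  calc ((2 * m).factorial : ℝ) = (Nat.choose (2 * m) m : ℝ) * ((m.factorial : ℝ) ^ 2) := by
        rw [← h1]; push_cast; ring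
    _ ≤ 4 ^ m * (m.factorial : ℝ) ^ 2 := by
        have : (Nat.choose (2 * m) m : ℝ) ≤ 4 ^ m := by exact_mod_cast h2
        gcongr

theorem dbl_thm (hPOL : POLStmt) (hSYM : SYMStmt) (hUPB : UPBStmt) : DBLStmt := by
  intro α V _ _ _ ρ x m v hρ hx hm hv
  obtain ⟨v1, h1, h2, h3⟩ := hSYM α V ρ x m (2 * m) v hρ
    (fun i j hi hj => hx i j (by omega) (by omega)) (by omega)
  have h1' : Inv ρ x m (3 * m) v1 := by
    intro i j hi hi' hj hj'
    exact h1 i j hi (by omega) hj (by omega)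
  have h0 : Inv ρ x 0 m v1 := by
    intro i j hi hi' hj hj'
    refine h2 _ (fun l hl hl' => ?_) (hv i j hi hi' hj hj')
    apply Equiv.swap_apply_of_ne_of_ne
    · intro h
      have := hx l i (by omega) (by omega) h
      omega
    · intro h
      have := hx l j (by omega) (by omega) h
      omega
  have hP := hPOL α V ρ x m v1 hρ hx hm h0 h1'
  obtain ⟨hU1, -⟩ := hUPB α V ρ x m m v v1 hρ
  have hU2 := (hUPB α V ρ x m m (v - v1) 0 hρ).2
  set d := ‖v - v1‖ with hd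
  have hd0 : 0 ≤ d := norm_nonneg _
  have hf : (0 : ℝ) < (m.factorial : ℝ) := by exact_mod_cast m.factorial_pos
  have h4 : ‖UpN ρ x m m v1‖ ≤ ‖UpN ρ x m m v‖ + ‖UpN ρ x m m (v - v1)‖ := by
    have : UpN ρ x m m v1 = UpN ρ x m m v - UpN ρ x m m (v - v1) := by
      rw [hU1]; abel
    rw [this]
    exact norm_sub_le _ _
  have h5 : ‖UpN ρ x m m (v - v1)‖ ≤ ((m + m).factorial : ℝ) / m.factorial * d := by
    rw [div_mul_eq_mul_div, le_div_iff₀ hf, mul_comm]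
    exact hU2
  have h6 : ‖v1‖ ≤ 1 / (m.factorial : ℝ) * ‖UpN ρ x m m v‖ + 4 ^ m * d := by
    have h7 : ‖v1‖ ≤ 1 / (m.factorial : ℝ) * (‖UpN ρ x m m v‖ +
        ((m + m).factorial : ℝ) / m.factorial * d) := by
      rw [one_div_mul_eq_div, le_div_iff₀ hf, mul_comm]
      exact hP.trans (h4.trans (by gcongr))
    refine h7.trans ?_
    rw [mul_add]
    have h8 : 1 / (m.factorial : ℝ) * (((m + m).factorial : ℝ) / m.factorial * d) =
        ((m + m).factorial : ℝ) / (m.factorial : ℝ) ^ 2 * d := by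
      field_simp
    rw [h8]
    have := num2 m
    gcongr
  have h7 : ‖v‖ ≤ 1 / (m.factorial : ℝ) * ‖UpN ρ x m m v‖ + (1 + 4 ^ m) * d := by
    have h8 : ‖v‖ ≤ ‖v1‖ + d := by
      have : v = v1 + (v - v1) := by abel
      calc ‖v‖ = ‖v1 + (v - v1)‖ := by rw [← this]
        _ ≤ ‖v1‖ + d := norm_add_le _ _
    linarith
  have h8 : ‖v‖ ^ 2 ≤ 2 * (1 / (m.factorial : ℝ) * ‖UpN ρ x m m v‖) ^ 2 +
      2 * ((1 + 4 ^ m) * d) ^ 2 := by
    have h9 := pow_le_pow_left₀ (norm_nonneg v) h7 2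
    nlinarith [sq_nonneg (1 / (m.factorial : ℝ) * ‖UpN ρ x m m v‖ - (1 + 4 ^ m) * d)]
  -- the bound for `d`
  have h9 : d ^ 2 ≤ 81 ^ m * (2 * m) *
      ∑ j ∈ Ico m (3 * m - 1), ‖v - ρ (Equiv.swap (x j) (x (j + 1))) v‖ ^ 2 := by
    have h10 := pow_le_pow_left₀ hd0 h3 2
    rw [show m + 2 * m - 1 = 3 * m - 1 by omega, mul_pow] at h10
    have h11 : ((3 : ℝ) ^ (2 * m)) ^ 2 = 81 ^ m := by
      rw [← pow_mul, show 2 * m * 2 = 4 * m by ring, pow_mul]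
      norm_num
    rw [h11] at h10
    have h12 := sq_sum_le_card_mul_sum_sq (s := Ico m (3 * m - 1))
      (f := fun j => ‖v - ρ (Equiv.swap (x j) (x (j + 1))) v‖)
    rw [Nat.card_Ico] at h12
    have h13 : ((3 * m - 1 - m : ℕ) : ℝ) ≤ 2 * m := by
      have : 3 * m - 1 - m ≤ 2 * m := by omega
      exact_mod_cast this
    have h14 : (0 : ℝ) ≤ ∑ j ∈ Ico m (3 * m - 1),
        ‖v - ρ (Equiv.swap (x j) (x (j + 1))) v‖ ^ 2 := sum_nonneg fun j _ => by positivity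
    calc d ^ 2 ≤ _ := h10
      _ ≤ 81 ^ m * ((3 * m - 1 - m : ℕ) * ∑ j ∈ Ico m (3 * m - 1),
          ‖v - ρ (Equiv.swap (x j) (x (j + 1))) v‖ ^ 2) := by gcongr
      _ ≤ 81 ^ m * ((2 * m) * ∑ j ∈ Ico m (3 * m - 1),
          ‖v - ρ (Equiv.swap (x j) (x (j + 1))) v‖ ^ 2) := by gcongr
      _ = _ := by ring
  set S := ∑ j ∈ Ico m (3 * m - 1), ‖v - ρ (Equiv.swap (x j) (x (j + 1))) v‖ ^ 2 with hS
  have hS0 : 0 ≤ S := sum_nonneg fun j _ => by positivity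
  have h10 : 2 * ((1 + 4 ^ m) * d) ^ 2 ≤ (10 ^ 5) ^ m * S := by
    calc 2 * ((1 + 4 ^ m) * d) ^ 2 = 2 * (1 + 4 ^ m) ^ 2 * d ^ 2 := by ring
      _ ≤ 2 * (1 + 4 ^ m) ^ 2 * (81 ^ m * (2 * m) * S) := by gcongr
      _ = 2 * (1 + 4 ^ m) ^ 2 * (81 ^ m * (2 * m)) * S := by ring
      _ ≤ (10 ^ 5) ^ m * S := by
        have := num1 m hm
        gcongr
  have h11 : 2 * (1 / (m.factorial : ℝ) * ‖UpN ρ x m m v‖) ^ 2 =
      2 / (m.factorial : ℝ) ^ 2 * ‖UpN ρ x m m v‖ ^ 2 := by ring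
  rw [h11] at h8
  exact h8.trans (add_le_add_right h10 _)

end Pool.Agent.H62.KC.DBL
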